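import Pool.Agent.U166.NF.CN.Key
import Pool.Agent.U166.NF.CX.Abs
import Pool.Agent.U166.NF.CX.Tame
import Pool.Agent.U166.NF.CX.Asm

set_option autoImplicit false

/-!
# Many incomparable wild places
-/

namespace Pool.Agent.U166.NF.CN

open Filter Topology NNReal
open Pool.Agent.W882.Nip3 Pool.Agent.TH686.NF Pool.Agent.R614.NF
open Pool.Agent.Results.MP_3554b5_lc.UnramifiedNorms
open Pool.Agent.U166.NF.CX (E E_top E_coe E_add E_anti E_eq_zero lt_of_E_lt le_of_E_le half_lt half_pos'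
  lead_limit pol pol_analytic ctr mul_ctr pol_ctr pol_order pol_ne exists_ctr exists_val not_tame
  exists_lift)

universe u v

theorem pol_deriv {m a b : ℤ} (hm : m ≠ 0) (hb : b ≠ 0) : deriv (pol m a b) (ctr m a b) ≠ 0 := by
  have h : (m : ℂ) ≠ 0 := by exact_mod_cast hm
  have h' : (b : ℂ) ≠ 0 := by exact_mod_cast hb
  have h1 : HasDerivAt (pol m a b) (2 * ((m : ℂ) * ctr m a b - a) * m) (ctr m a b) := by
    unfold pol
    have h2 : HasDerivAt (fun z : ℂ => (m : ℂ) * z - a) (m : ℂ) (ctr m a b) := by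
      simpa using ((hasDerivAt_id (ctr m a b)).const_mul (m : ℂ)).sub_const (a : ℂ)
    have h3 := (h2.pow 2).add_const ((b : ℂ) ^ 2)
    refine h3.congr_deriv ?_
    norm_num
  rw [h1.deriv, mul_ctr hm]
  have h4 : (a : ℂ) + b * Complex.I - a = b * Complex.I := by ring
  rw [h4]
  exact mul_ne_zero (mul_ne_zero two_ne_zero (mul_ne_zero h' Complex.I_ne_zero)) h

variable {Y : Type u} [NormedAddCommGroup Y] [NormedSpace ℂ Y] [CompleteSpace Y]
variable {W : Set (ℂ × Y)} {c : ℂ} {d : Y}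

theorem val_fst (hW : IsOpen W) (hp : (c, d) ∈ W) (f : holomorphicRing W) (R : ℂ → ℂ)
    (hR : AnalyticOnNhd ℂ R Set.univ) (hf : ∀ x : W, f.1 x = R x.1.1) :
    val hW hp f = E (analyticOrderAt R c) := by
  have h1 : AnalyticOnNhd ℂ (fun p : ℂ × Y => R p.1) W := fun p _ =>
    AnalyticAt.comp (g := R) (f := fun p : ℂ × Y => p.1) (hR _ trivial) analyticAt_fst
  rw [val_eq hW hp f h1 hf, gord_unique hW h1 hp (n := analyticOrderAt R c)
    (Eventually.of_forall fun w => rfl)]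

theorem val_snd (hW : IsOpen W) (hp : (c, d) ∈ W) (f : holomorphicRing W) (ℓ : Y →L[ℂ] ℂ) (e : Y)
    (he : ℓ e = 1) (R : ℂ → ℂ)
    (hR : AnalyticOnNhd ℂ R Set.univ) (hR' : deriv R (ℓ d) ≠ 0)
    (hf : ∀ x : W, f.1 x = R (ℓ x.1.2)) :
    val hW hp f = 1 := by
  have a0 : ∀ w : Y, AnalyticAt ℂ (fun w : Y => R (ℓ w)) w := fun w =>
    AnalyticAt.comp (g := R) (f := fun w => ℓ w) (hR _ trivial) (ℓ.analyticAt _)
  have h1 : AnalyticOnNhd ℂ (fun p : ℂ × Y => R (ℓ p.2)) W := fun p _ =>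
    AnalyticAt.comp (g := fun w : Y => R (ℓ w)) (f := fun p : ℂ × Y => p.2) (a0 _) analyticAt_snd
  have h2 : gord c d (fun p : ℂ × Y => R (ℓ p.2)) = 0 := by
    refine gord_unique hW h1 hp ?_
    have h3 : ∀ᶠ w in gen d, R (ℓ w) ≠ 0 := by
      refine (gen_or (a0 d)).resolve_left fun h => hR' ?_
      have hc : Tendsto (fun u : ℂ => d + (u - ℓ d) • e) (𝓝 (ℓ d)) (𝓝 d) := by
        have h2 : Continuous fun u : ℂ => d + (u - ℓ d) • e := by fun_prop
        simpa using h2.tendsto (ℓ d)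
      have h4 : R =ᶠ[𝓝 (ℓ d)] fun _ => 0 := by
        filter_upwards [hc.eventually h] with u hu
        rw [map_add, map_smul, he, smul_eq_mul, mul_one, add_sub_cancel] at hu
        exact hu
      rw [h4.deriv_eq, deriv_const]
    filter_upwards [h3] with w hw
    rw [analyticOrderAt_eq_zero]
    right
    exact hw
  rw [val_eq hW hp f h1 hf, h2]
  exact (E_coe 0).trans (pow_zero _)

/-- the first coordinate -/
noncomputable def fstFun (W : Set (ℂ × Y)) : holomorphicRing W :=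
  ⟨fun x => x.1.1, fun p => p.1, fun _ _ => analyticAt_fst, fun _ => rfl⟩

/-- a linear function of the second coordinate -/
noncomputable def sndFun (W : Set (ℂ × Y)) (ℓ : Y →L[ℂ] ℂ) : holomorphicRing W :=
  ⟨fun x => ℓ x.1.2, fun p => ℓ p.2, fun p _ =>
    AnalyticAt.comp (g := fun w : Y => ℓ w) (f := fun p : ℂ × Y => p.2) (ℓ.analyticAt _)
      analyticAt_snd, fun _ => rfl⟩

/-- `(m t - a)² + b²` in a commutative ring -/
def polR {R : Type v} [CommRing R] (m a b : ℤ) (t : R) : R :=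
  ((m : R) * t - (a : R)) ^ 2 + (b : R) ^ 2

theorem map_polR {R : Type u} {S : Type v} [CommRing R] [CommRing S] (f : R →+* S) (m a b : ℤ)
    (t : R) : f (polR m a b t) = polR m a b (f t) := by
  unfold polR
  simp only [map_add, map_pow, map_sub, map_mul, map_intCast]

theorem intCast_apply (n : ℤ) (x : W) : ((n : holomorphicRing W)).1 x = (n : ℂ) := by
  have h : ((n : holomorphicRing W)).1 = ((n : W → ℂ)) := by push_cast; rfl
  rw [h]; rfl

theorem polR_apply (m a b : ℤ) (t : holomorphicRing W) (x : W) :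
    (polR m a b t).1 x = pol m a b (t.1 x) := by
  change (((m : holomorphicRing W)).1 x * t.1 x - ((a : holomorphicRing W)).1 x) ^ 2 +
    (((b : holomorphicRing W)).1 x) ^ 2 = _
  rw [intCast_apply, intCast_apply, intCast_apply]
  rfl

theorem many_places {K : Type} [Field K] (O : ValuationSubring K) {κ : Type} [Field κ]
    (π : O →+* κ) (hπ : Function.Surjective π) {Q : Type u} [Field Q] (ρ : holomorphicRing W →+* Q)
    (hρ : Function.Injective ρ) (ι : κ →+* Q)
    (hq : ∀ h : κ, ∃ f g : holomorphicRing W, g ≠ 0 ∧ ι h * ρ g = ρ f)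
    (hW : IsOpen W) (hW' : IsPreconnected W) (hne : W.Nonempty) (X₁ X₂ : κ)
    (ℓ : Y →L[ℂ] ℂ) (e : Y) (he : ℓ e = 1)
    (hX : ι X₁ = ρ (fstFun W)) (hY : ι X₂ = ρ (sndFun W ℓ)) (N : ℕ) :
    ∃ P : Fin N → ValuedPlace K, (Pairwise fun i j => (P i).Incomparable (P j)) ∧
      ∀ i, ¬ (P i).TameUpTo 2 := by
  obtain ⟨⟨z0, w0⟩, h0⟩ := hne
  obtain ⟨U, V, hU, hV, hz0, hw0, hUV⟩ := isOpen_prod_iff.1 hW z0 w0 h0
  obtain ⟨m, a, b, hm, hb, hc⟩ := exists_ctr hU hz0 N
  have hcont : Continuous fun u : ℂ => w0 + (u - ℓ w0) • e := by fun_prop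
  have hV1 : IsOpen {u : ℂ | w0 + (u - ℓ w0) • e ∈ V} := hV.preimage hcont
  have hV2 : ℓ w0 ∈ {u : ℂ | w0 + (u - ℓ w0) • e ∈ V} := by
    change w0 + (ℓ w0 - ℓ w0) • e ∈ V
    rw [sub_self, zero_smul, add_zero]
    exact hw0
  obtain ⟨m', a', b', hm', hb', hc'⟩ := exists_ctr hV1 hV2 1
  obtain ⟨A, hA⟩ : ∃ A : ℤ, A = a' + ((0 : ℕ) : ℤ) := ⟨_, rfl⟩
  obtain ⟨d, hd, hd'⟩ : ∃ d ∈ V, ℓ d = ctr m' A b' := by
    refine ⟨w0 + (ctr m' A b' - ℓ w0) • e, ?_, ?_⟩
    · rw [hA]; exact hc' 0 one_pos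
    · rw [map_add, map_smul, he, smul_eq_mul, mul_one, add_sub_cancel]
  have hp : ∀ i : Fin N, (ctr m (a + ((i : ℕ) : ℤ)) b, d) ∈ W := fun i =>
    hUV ⟨hc i i.2, hd⟩
  choose u hu using fun i => exists_val ρ hρ ι hq (val hW (hp i)) (val_zero hW hW' (hp i))
  -- values of the polynomials
  have hval : ∀ (i : Fin N) (h : κ) (f : holomorphicRing W), ι h = ρ f →
      u i h = val hW (hp i) f := by
    intro i h f hf
    have h1 := hu i h f 1 (by rw [map_one, mul_one, hf])
    rwa [map_one, mul_one] at h1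
  have hT : ∀ i k : Fin N, u i (polR m (a + ((k : ℕ) : ℤ)) b X₁) =
      E (analyticOrderAt (pol m (a + ((k : ℕ) : ℤ)) b) (ctr m (a + ((i : ℕ) : ℤ)) b)) := by
    intro i k
    rw [hval i _ (polR m (a + ((k : ℕ) : ℤ)) b (fstFun W)) (by rw [map_polR, map_polR, hX])]
    exact val_fst hW (hp i) _ _ (pol_analytic _ _ _) fun x => polR_apply _ _ _ _ _
  have hT1 : ∀ i : Fin N, u i (polR m (a + ((i : ℕ) : ℤ)) b X₁) = 1 / 2 := by
    intro i
    rw [hT, pol_order hm hb]
    exact (E_coe 1).trans (pow_one _)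
  have hT2 : ∀ i k : Fin N, i ≠ k → u i (polR m (a + ((k : ℕ) : ℤ)) b X₁) = 1 := by
    intro i k hik
    rw [hT, analyticOrderAt_eq_zero.2 (Or.inr (pol_ne hm ?_))]
    · exact (E_coe 0).trans (pow_zero _)
    · intro h
      apply hik
      have h1 : ((i : ℕ) : ℤ) = ((k : ℕ) : ℤ) := by omega
      exact Fin.ext (by exact_mod_cast h1)
  have hY1 : ∀ i : Fin N, u i (polR m' A b' X₂) = 1 := by
    intro i
    rw [hval i _ (polR m' A b' (sndFun W ℓ)) (by rw [map_polR, map_polR, hY])]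
    refine val_snd hW (hp i) _ ℓ e he (pol m' A b') (pol_analytic _ _ _) ?_
      fun x => polR_apply _ _ _ _ _
    rw [hd']
    exact pol_deriv hm' hb'
  let P : Fin N → ValuedPlace K := fun i =>
    { O := O, κ := κ, field := inferInstance, π := π, surjective := hπ, v := u i }
  refine ⟨P, ?_, ?_⟩
  · intro i j hij
    set Ti := polR m (a + ((i : ℕ) : ℤ)) b X₁ with hTi
    set Tj := polR m (a + ((j : ℕ) : ℤ)) b X₁ with hTj
    have hTi0 : Ti ≠ 0 := by
      intro h
      have h1 := hT1 i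
      rw [← hTi, h, map_zero] at h1
      exact half_pos'.ne h1
    have hTj0 : Tj ≠ 0 := by
      intro h
      have h1 := hT1 j
      rw [← hTj, h, map_zero] at h1
      exact half_pos'.ne h1
    obtain ⟨x, hx0, ⟨h1, h2⟩, h3, h4⟩ := exists_lift O π hπ (Ti / Tj) (Tj / Ti) (by
      rw [div_mul_div_cancel₀ hTj0, div_self hTi0])
    refine ⟨x, hx0, ⟨h1, ?_⟩, ⟨h3, ?_⟩⟩
    · change u i (π ⟨x, h1⟩) < 1
      rw [h2, map_div₀, hT1 i, hT2 i j hij, div_one]
      exact half_lt
    · change u j (π ⟨x⁻¹, h3⟩) < 1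
      rw [h4, map_div₀, hT1 j, hT2 j i hij.symm, div_one]
      exact half_lt
  · intro i
    refine not_tame (P i) (polR m (a + ((i : ℕ) : ℤ)) b X₁) ?_ ?_ ?_ ?_ (polR m' A b' X₂) ?_ ?_
    · change u i _ ≠ 0
      rw [hT1 i]
      exact half_pos'.ne'
    · change u i _ < 1
      rw [hT1 i]
      exact half_lt
    · intro h hh
      change κ at h
      change ∃ n : ℤ, u i h = u i _ ^ n
      rw [hT1 i]
      obtain ⟨f, g, hg, hfg⟩ := hq h
      have hf : f ≠ 0 := by
        rintro rfl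
        rw [map_zero] at hfg
        rcases mul_eq_zero.1 hfg with h1 | h1
        · exact hh (ι.injective (by rw [h1, map_zero]))
        · exact hg (hρ (by rw [h1, map_zero]))
      obtain ⟨k, hk, -⟩ := val_pow hW hW' (hp i) f hf
      obtain ⟨l, hl, -⟩ := val_pow hW hW' (hp i) g hg
      have h1 := hu i h f g hfg
      rw [hk, hl] at h1
      refine ⟨(k : ℤ) - l, ?_⟩
      rw [zpow_sub₀ half_pos'.ne', zpow_natCast, zpow_natCast, ← h1, mul_div_assoc,
        div_self (pow_pos half_pos' l).ne', mul_one]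
    · intro n hn
      change u i ((n : κ)) = 1
      rw [hval i _ (n : holomorphicRing W) (by rw [map_natCast, map_natCast])]
      rw [val_fst hW (hp i) _ (fun _ => (n : ℂ)) analyticOnNhd_const (fun x => by
        have := intCast_apply (W := W) (n : ℤ) x
        push_cast at this
        exact this)]
      rw [analyticOrderAt_eq_zero.2 (Or.inr (by exact_mod_cast hn))]
      exact (E_coe 0).trans (pow_zero _)
    · change u i _ ≤ 1
      rw [hY1 i]
    · intro s hs
      change κ at s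
      change u i s ≤ 1 at hs
      change ¬ u i (polR m' A b' X₂ - s ^ 2) < 1
      obtain ⟨f, g, hg, hfg⟩ := hq s
      have h1 := hu i s f g hfg
      have h2 : val hW (hp i) f ≤ val hW (hp i) g := by
        rw [← h1]
        exact mul_le_of_le_one_left zero_le hs
      have h3 := key hW hW' (hp i) f g (polR m' A b' (sndFun W ℓ)) hg ℓ e he (pol m' A b')
        (pol_analytic _ _ _) (by rw [hd']; exact pol_ctr hm') (by rw [hd']; exact pol_deriv hm' hb')
        (fun x => polR_apply _ _ _ _ _) h2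
      intro h4
      apply h3
      have h5 := hu i (polR m' A b' X₂ - s ^ 2) (polR m' A b' (sndFun W ℓ) * g ^ 2 - f ^ 2) (g ^ 2) (by
        rw [map_sub, map_sub, map_mul, map_pow, map_pow, map_pow, map_polR, map_polR, hY, ← hfg]
        ring)
      rw [← h5, map_pow]
      have hg0 : 0 < val hW (hp i) g := pos_iff_ne_zero.2 fun h => hg (val_zero hW hW' (hp i) g h)
      have h6 := mul_lt_mul_of_pos_right h4 (pow_pos hg0 2)
      rwa [one_mul] at h6

end Pool.Agent.U166.NF.CN
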