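import Mathlib

set_option autoImplicit false

/-!
# The filter of the generic points near a point
-/

namespace Pool.Agent.U166.NF.CN

open Filter Topology

universe u

variable {E : Type u} [NormedAddCommGroup E] [NormedSpace ℂ E]

theorem mul_not_zero {d : E} {α β : E → ℂ} (hα : AnalyticAt ℂ α d) (hβ : AnalyticAt ℂ β d)
    (h1 : ¬ ∀ᶠ w in 𝓝 d, α w = 0) (h2 : ¬ ∀ᶠ w in 𝓝 d, β w = 0) :
    ¬ ∀ᶠ w in 𝓝 d, α w * β w = 0 := by
  intro h
  obtain ⟨r, hr, hr'⟩ := Metric.eventually_nhds_iff_ball.1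
    (h.and (hα.eventually_analyticAt.and hβ.eventually_analyticAt))
  have h3 : ∃ x ∈ Metric.ball d r, α x ≠ 0 := by
    by_contra hcon
    push Not at hcon
    exact h1 (Metric.eventually_nhds_iff_ball.2 ⟨r, hr, hcon⟩)
  obtain ⟨x, hx, hx'⟩ := h3
  have h4 : β =ᶠ[𝓝 x] 0 := by
    have h5 : ∀ᶠ y in 𝓝 x, α y ≠ 0 := (hr' x hx).2.1.continuousAt.eventually_ne hx'
    filter_upwards [h5, Metric.isOpen_ball.mem_nhds hx] with y hy hy'
    exact (mul_eq_zero.1 (hr' y hy').1).resolve_left hy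
  have h5 : AnalyticOnNhd ℂ β (Metric.ball d r) := fun y hy => (hr' y hy).2.2
  apply h2
  refine Metric.eventually_nhds_iff_ball.2 ⟨r, hr, fun y hy => ?_⟩
  exact h5.eqOn_zero_of_preconnected_of_eventuallyEq_zero
      (convex_ball d r).isPreconnected hx h4 hy

/-- the generic points near `d` -/
def gen (d : E) : Filter E where
  sets := {U | ∃ α : E → ℂ, AnalyticAt ℂ α d ∧ (¬ ∀ᶠ w in 𝓝 d, α w = 0) ∧
    ∀ᶠ w in 𝓝 d, α w ≠ 0 → w ∈ U}
  univ_sets := ⟨fun _ => 1, analyticAt_const, fun h => by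
    obtain ⟨x, hx⟩ := h.exists
    exact one_ne_zero hx, Eventually.of_forall fun _ _ => trivial⟩
  sets_of_superset := by
    rintro U V ⟨α, h1, h2, h3⟩ hUV
    exact ⟨α, h1, h2, h3.mono fun w hw hw' => hUV (hw hw')⟩
  inter_sets := by
    rintro U V ⟨α, h1, h2, h3⟩ ⟨β, h4, h5, h6⟩
    refine ⟨α * β, h1.mul h4, mul_not_zero h1 h4 h2 h5, ?_⟩
    filter_upwards [h3, h6] with w hw hw' hne
    exact ⟨hw (left_ne_zero_of_mul hne), hw' (right_ne_zero_of_mul hne)⟩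

instance (d : E) : (gen d).NeBot := by
  refine ⟨fun h => ?_⟩
  have h1 : (∅ : Set E) ∈ gen d := by rw [h]; trivial
  obtain ⟨α, -, h2, h3⟩ := h1
  apply h2
  filter_upwards [h3] with w hw
  by_contra hne
  exact hw hne

theorem gen_le (d : E) : gen d ≤ 𝓝 d := by
  intro U hU
  refine ⟨fun _ => 1, analyticAt_const, fun h => by
    obtain ⟨x, hx⟩ := h.exists
    exact one_ne_zero hx, ?_⟩
  filter_upwards [hU] with w hw _ using hw

theorem gen_or {d : E} {α : E → ℂ} (hα : AnalyticAt ℂ α d) :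
    (∀ᶠ w in 𝓝 d, α w = 0) ∨ ∀ᶠ w in gen d, α w ≠ 0 := by
  by_cases h : ∀ᶠ w in 𝓝 d, α w = 0
  · exact Or.inl h
  · exact Or.inr ⟨α, hα, h, Eventually.of_forall fun w hw => hw⟩

theorem gen_eq {d : E} {α β : E → ℂ} (hα : AnalyticAt ℂ α d) (hβ : AnalyticAt ℂ β d)
    (h : ∀ᶠ w in gen d, α w = β w) : ∀ᶠ w in 𝓝 d, α w = β w := by
  rcases gen_or (hα.sub hβ) with h1 | h1
  · filter_upwards [h1] with w hw using sub_eq_zero.1 hw
  · obtain ⟨w, hw, hw'⟩ := (h.and h1).exists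
    exact absurd (sub_eq_zero.2 hw) hw'

end Pool.Agent.U166.NF.CN
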