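import Pool.Agent.U166.NF.CN.Asm

set_option autoImplicit false

/-!
# Change of coordinates
-/

namespace Pool.Agent.U166.NF.CN

open Filter Topology NNReal
open Pool.Agent.W882.Nip3 Pool.Agent.TH686.NF Pool.Agent.R614.NF
open Pool.Agent.Results.MP_3554b5_lc.UnramifiedNorms

universe u v

/-- the restriction to `W` of a function which is analytic on `W` -/
def restr {X : Type u} [NormedAddCommGroup X] [NormedSpace ℂ X] {W : Set X} (f : X → ℂ)
    (hf : AnalyticOnNhd ℂ f W) : holomorphicRing W :=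
  ⟨fun x => f x, f, hf, fun _ => rfl⟩

variable {X : Type u} [NormedAddCommGroup X] [NormedSpace ℂ X]
variable {Z : Type u} [NormedAddCommGroup Z] [NormedSpace ℂ Z]
variable {W : Set X} {V : Set Z}

theorem exists_inverse [CompleteSpace X] [CompleteSpace Z] (hW : IsOpen W)
    (hW' : IsPreconnected W) {p : X} (hp : p ∈ W)
    (Φ : X → Z) (hΦ : AnalyticAt ℂ Φ p) (hb : Function.Bijective (fderiv ℂ Φ p))
    (M : Set X) (hM : M ∈ 𝓝 p) :
    ∃ (V : Set Z) (Ψ : Z → X), IsOpen V ∧ IsPreconnected V ∧ V.Nonempty ∧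
      AnalyticOnNhd ℂ Ψ V ∧ (∀ y ∈ V, Ψ y ∈ W ∧ Ψ y ∈ M ∧ Φ (Ψ y) = y) ∧
      ∀ f : X → ℂ, AnalyticOnNhd ℂ f W → (∀ y ∈ V, f (Ψ y) = 0) → ∀ x ∈ W, f x = 0 := by
  let i : X ≃L[ℂ] Z := ContinuousLinearEquiv.ofBijective (fderiv ℂ Φ p)
    (LinearMap.ker_eq_bot.2 hb.1) (LinearMap.range_eq_top.2 hb.2)
  have hi : fderiv ℂ Φ p = i := by
    rfl
  have hs : HasStrictFDerivAt Φ (i : X →L[ℂ] Z) p := by
    rw [← hi]
    exact hΦ.hasStrictFDerivAt
  let R := hs.toOpenPartialHomeomorph Φ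
  have hpR : p ∈ R.source := hs.mem_toOpenPartialHomeomorph_source
  have hqR : Φ p ∈ R.target := hs.image_mem_toOpenPartialHomeomorph_target
  have hinv : R.symm (Φ p) = p := R.left_inv hpR
  have hA : AnalyticAt ℂ R.symm (Φ p) := R.analyticAt_symm' hpR hΦ hi
  have hWM : W ∩ M ∈ 𝓝 (R.symm (Φ p)) := by
    rw [hinv]
    exact Filter.inter_mem (hW.mem_nhds hp) hM
  have h1a : ∀ᶠ y in 𝓝 (Φ p), y ∈ R.target := R.open_target.mem_nhds hqR
  have h1b : ∀ᶠ y in 𝓝 (Φ p), R.symm y ∈ W ∩ M := hA.continuousAt hWM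
  have h1 : ∀ᶠ y in 𝓝 (Φ p), AnalyticAt ℂ R.symm y ∧ y ∈ R.target ∧ R.symm y ∈ W ∩ M :=
    hA.eventually_analyticAt.and (h1a.and h1b)
  obtain ⟨r, hr, hr'⟩ := Metric.eventually_nhds_iff_ball.1 h1
  refine ⟨Metric.ball (Φ p) r, R.symm, Metric.isOpen_ball,
    (convex_ball (Φ p) r).isPreconnected, ⟨Φ p, Metric.mem_ball_self hr⟩,
    fun y hy => (hr' y hy).1, fun y hy => ⟨(hr' y hy).2.2.1, (hr' y hy).2.2.2,
      R.right_inv (hr' y hy).2.1⟩, ?_⟩
  intro f hf hf0
  have h2 : f =ᶠ[𝓝 p] 0 := by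
    have h3 : ∀ᶠ x in 𝓝 p, x ∈ R.source := R.open_source.mem_nhds hpR
    have h4 : ∀ᶠ x in 𝓝 p, Φ x ∈ Metric.ball (Φ p) r :=
      hΦ.continuousAt (Metric.ball_mem_nhds _ hr)
    filter_upwards [h3, h4] with x h5 h6
    have h7 := hf0 _ h6
    have h8 : R.symm (Φ x) = x := R.left_inv h5
    rw [h8] at h7
    exact h7
  intro x hx
  exact hf.eqOn_zero_of_preconnected_of_eventuallyEq_zero hW' hp h2 hx

/-- the pullback of functions -/
def pull (Ψ : Z → X) (hΨ : AnalyticOnNhd ℂ Ψ V) (hm : ∀ y ∈ V, Ψ y ∈ W) :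
    holomorphicRing W →+* holomorphicRing V where
  toFun f := ⟨fun y => f.1 ⟨Ψ y, hm y y.2⟩, by
    obtain ⟨g, hg, h⟩ := f.2
    exact ⟨fun y => g (Ψ y), fun y hy => (hg _ (hm y hy)).comp (hΨ y hy), fun y => h _⟩⟩
  map_one' := rfl
  map_mul' _ _ := rfl
  map_zero' := rfl
  map_add' _ _ := rfl

theorem holo_isDomain {Y : Type u} [NormedAddCommGroup Y] [NormedSpace ℂ Y] [CompleteSpace Y]
    {W : Set (ℂ × Y)} (hW : IsOpen W) (hW' : IsPreconnected W) (hne : W.Nonempty) :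
    IsDomain (holomorphicRing W) := by
  obtain ⟨⟨c, d⟩, hp⟩ := hne
  have h1 : Nontrivial (holomorphicRing W) := ⟨⟨0, 1, fun h => by
    have h2 := congrArg (val hW hp) h
    rw [map_zero, map_one] at h2
    exact zero_ne_one h2⟩⟩
  have h2 : NoZeroDivisors (holomorphicRing W) := ⟨fun {a b} h => by
    have h3 := congrArg (val hW hp) h
    rw [map_zero, map_mul] at h3
    rcases mul_eq_zero.1 h3 with h4 | h4
    · exact Or.inl (val_zero hW hW' hp a h4)
    · exact Or.inr (val_zero hW hW' hp b h4)⟩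
  exact NoZeroDivisors.to_isDomain _

theorem exists_embedding {A B : Type u} [CommRing A] [CommRing B] [IsDomain B] (θ : A →+* B)
    (hθ : Function.Injective θ) {Q : Type u} [Field Q] {κ : Type} [Field κ]
    (ρ : A →+* Q) (hρ : Function.Injective ρ) (ι : κ →+* Q)
    (hq : ∀ h : κ, ∃ f g : A, g ≠ 0 ∧ ι h * ρ g = ρ f) :
    ∃ ι' : κ →+* FractionRing B, ∀ (h : κ) (f g : A), ι h * ρ g = ρ f →
        ι' h * algebraMap B (FractionRing B) (θ g) = algebraMap B (FractionRing B) (θ f) := by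
  have : IsDomain A := hρ.isDomain ρ
  let j : FractionRing A →+* Q := IsFractionRing.lift hρ
  have hj : ∀ a : A, j (algebraMap A (FractionRing A) a) = ρ a := fun a =>
    IsFractionRing.lift_algebraMap hρ a
  have hmem : ∀ h : κ, ∃ z : FractionRing A, j z = ι h := by
    intro h
    obtain ⟨f, g, hg, hfg⟩ := hq h
    have hg0 : ρ g ≠ 0 := fun h0 => hg (hρ (by rw [h0, map_zero]))
    refine ⟨algebraMap A (FractionRing A) f / algebraMap A (FractionRing A) g, ?_⟩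
    rw [map_div₀, hj, hj, ← hfg, mul_div_assoc, div_self hg0, mul_one]
  choose z hz using hmem
  let ι' : κ →+* FractionRing A :=
    { toFun := z
      map_one' := j.injective (by rw [hz, map_one, map_one])
      map_mul' := fun a b => j.injective (by rw [hz, map_mul, map_mul, hz, hz])
      map_zero' := j.injective (by rw [hz, map_zero, map_zero])
      map_add' := fun a b => j.injective (by rw [hz, map_add, map_add, hz, hz]) }
  have hθ' : Function.Injective ((algebraMap B (FractionRing B)).comp θ) :=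
    (IsFractionRing.injective B (FractionRing B)).comp hθ
  let k : FractionRing A →+* FractionRing B := IsFractionRing.lift hθ'
  have hk : ∀ a : A, k (algebraMap A (FractionRing A) a) = algebraMap B (FractionRing B) (θ a) :=
    fun a => IsFractionRing.lift_algebraMap hθ' a
  refine ⟨k.comp ι', fun h f g hfg => ?_⟩
  have h1 : ι' h * algebraMap A (FractionRing A) g = algebraMap A (FractionRing A) f := by
    apply j.injective
    rw [map_mul, hj, hj, ← hfg]
    congr 1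
    exact hz h
  rw [RingHom.comp_apply, ← hk, ← hk, ← map_mul, h1]

/-- straightening of two functions -/
theorem straighten [CompleteSpace X] {p : X} (F₁ F₂ : X → ℂ) (h1 : AnalyticAt ℂ F₁ p)
    (h2 : AnalyticAt ℂ F₂ p) (hs : Function.Surjective (fderiv ℂ (fun x => (F₁ x, F₂ x)) p)) :
    ∃ (Y : Type u) (_ : NormedAddCommGroup Y) (_ : NormedSpace ℂ Y) (_ : CompleteSpace Y)
      (Φ : X → ℂ × (ℂ × Y)), AnalyticAt ℂ Φ p ∧ Function.Bijective (fderiv ℂ Φ p) ∧
        ∀ x, (Φ x).1 = F₁ x ∧ (Φ x).2.1 = F₂ x := by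
  set T := fderiv ℂ (fun x => (F₁ x, F₂ x)) p with hT
  have hT1 : ∀ x, (T x).1 = fderiv ℂ F₁ p x := by
    intro x
    rw [hT, DifferentiableAt.fderiv_prodMk h1.differentiableAt h2.differentiableAt]
    rfl
  have hT2 : ∀ x, (T x).2 = fderiv ℂ F₂ p x := by
    intro x
    rw [hT, DifferentiableAt.fderiv_prodMk h1.differentiableAt h2.differentiableAt]
    rfl
  obtain ⟨e₁, he₁⟩ := hs (1, 0)
  obtain ⟨e₂, he₂⟩ := hs (0, 1)
  let S : X →L[ℂ] X := ContinuousLinearMap.id ℂ X -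
    (((ContinuousLinearMap.fst ℂ ℂ ℂ).comp T).smulRight e₁ +
      ((ContinuousLinearMap.snd ℂ ℂ ℂ).comp T).smulRight e₂)
  have hS : ∀ x, S x = x - ((T x).1 • e₁ + (T x).2 • e₂) := fun x => rfl
  have hTS : ∀ x, T (S x) = 0 := by
    intro x
    rw [hS, map_sub, map_add, map_smul, map_smul, he₁, he₂]
    ext <;> simp
  let pr : X →L[ℂ] T.ker := S.codRestrict T.ker (fun x => hTS x)
  refine ⟨T.ker, inferInstance, inferInstance, inferInstance,
    fun x => (F₁ x, (F₂ x, pr x)), h1.prod (h2.prod (pr.analyticAt p)), ?_, fun x => ⟨rfl, rfl⟩⟩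
  have hd : ∀ x, fderiv ℂ (fun x => (F₁ x, (F₂ x, pr x))) p x = ((T x).1, ((T x).2, pr x)) := by
    intro x
    rw [DifferentiableAt.fderiv_prodMk h1.differentiableAt
      (h2.differentiableAt.prodMk pr.differentiableAt),
      DifferentiableAt.fderiv_prodMk h2.differentiableAt pr.differentiableAt, pr.fderiv, hT1, hT2]
    rfl
  constructor
  · rw [injective_iff_map_eq_zero]
    intro x hx
    rw [hd] at hx
    have h3 : (T x).1 = 0 := congrArg Prod.fst hx
    have h4 : (T x).2 = 0 := congrArg (fun t => t.2.1) hx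
    have h5 : pr x = 0 := congrArg (fun t => t.2.2) hx
    have h6 : S x = 0 := congrArg Subtype.val h5
    rw [hS, h3, h4, zero_smul, zero_smul, add_zero, sub_zero] at h6
    exact h6
  · rintro ⟨a, b, y⟩
    refine ⟨a • e₁ + b • e₂ + y.1, ?_⟩
    have hy : T y.1 = 0 := y.2
    have h3 : T (a • e₁ + b • e₂ + y.1) = (a, b) := by
      rw [map_add, map_add, map_smul, map_smul, he₁, he₂, hy]
      ext <;> simp
    rw [hd, h3]
    refine Prod.ext rfl (Prod.ext rfl ?_)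
    apply Subtype.ext
    change S (a • e₁ + b • e₂ + y.1) = y.1
    rw [hS, h3]
    simp

theorem many_places' [CompleteSpace X] {K : Type} [Field K] (O : ValuationSubring K) {κ : Type}
    [Field κ] (π : O →+* κ) (hπ : Function.Surjective π) {Q : Type u} [Field Q]
    (ρ : holomorphicRing W →+* Q)
    (hρ : Function.Injective ρ) (ι : κ →+* Q)
    (hq : ∀ h : κ, ∃ f g : holomorphicRing W, g ≠ 0 ∧ ι h * ρ g = ρ f)
    (hW : IsOpen W) (hW' : IsPreconnected W) (h₁ h₂ : κ) (f₁ g₁ f₂ g₂ : X → ℂ)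
    (af₁ : AnalyticOnNhd ℂ f₁ W) (ag₁ : AnalyticOnNhd ℂ g₁ W)
    (af₂ : AnalyticOnNhd ℂ f₂ W) (ag₂ : AnalyticOnNhd ℂ g₂ W)
    (e₁ : ι h₁ * ρ (restr g₁ ag₁) = ρ (restr f₁ af₁))
    (e₂ : ι h₂ * ρ (restr g₂ ag₂) = ρ (restr f₂ af₂)) (p : X) (hp : p ∈ W)
    (n₁ : g₁ p ≠ 0) (n₂ : g₂ p ≠ 0)
    (hb : Function.Surjective (fderiv ℂ (fun x => (f₁ x / g₁ x, f₂ x / g₂ x)) p)) (N : ℕ) :
    ∃ P : Fin N → ValuedPlace K, (Pairwise fun i j => (P i).Incomparable (P j)) ∧
      ∀ i, ¬ (P i).TameUpTo 2 := by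
  obtain ⟨Y, _, _, _, Φ, hΦ, hb, hΦ'⟩ := straighten (p := p) (fun x => f₁ x / g₁ x)
    (fun x => f₂ x / g₂ x) ((af₁ p hp).div (ag₁ p hp) n₁) ((af₂ p hp).div (ag₂ p hp) n₂) hb
  have hM : {x | g₁ x ≠ 0 ∧ g₂ x ≠ 0} ∈ 𝓝 p :=
    ((ag₁ p hp).continuousAt.eventually_ne n₁).and ((ag₂ p hp).continuousAt.eventually_ne n₂)
  obtain ⟨V, Ψ, hV, hV', hVne, hΨ, hmap, hinj⟩ := exists_inverse hW hW' hp _ hΦ hb _ hM
  let θ := pull Ψ hΨ (fun y hy => (hmap y hy).1)
  have hθ : Function.Injective θ := by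
    rw [injective_iff_map_eq_zero]
    intro f hf
    obtain ⟨g, hg, h⟩ := f.2
    have h3 := hinj g hg (fun y hy => by
      have h4 := congrFun (congrArg Subtype.val hf) ⟨y, hy⟩
      rw [← h ⟨Ψ y, (hmap y hy).1⟩]
      exact h4)
    apply Subtype.ext
    funext x
    rw [h x]
    exact h3 x x.2
  haveI := holo_isDomain hV hV' hVne
  obtain ⟨ι', hι⟩ := exists_embedding θ hθ ρ hρ ι hq
  have hne : ∀ g : X → ℂ, ∀ ag : AnalyticOnNhd ℂ g W, (∀ y ∈ V, g (Ψ y) ≠ 0) →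
      algebraMap (holomorphicRing V) (FractionRing (holomorphicRing V)) (θ (restr g ag)) ≠ 0 := by
    intro g ag hg h0
    have h3 : θ (restr g ag) = 0 := IsFractionRing.injective _ _ (by rw [h0, map_zero])
    obtain ⟨y, hy⟩ := hVne
    exact hg y hy (congrFun (congrArg Subtype.val h3) ⟨y, hy⟩)
  have hX : ι' h₁ = algebraMap (holomorphicRing V) (FractionRing (holomorphicRing V)) (fstFun V) := by
    have h3 := hι h₁ _ _ e₁
    have h4 : θ (restr f₁ af₁) = fstFun V * θ (restr g₁ ag₁) := by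
      apply Subtype.ext
      funext y
      change f₁ (Ψ y) = y.1.1 * g₁ (Ψ y)
      have h5 := congrArg Prod.fst (hmap y y.2).2.2
      rw [(hΦ' (Ψ y)).1] at h5
      rw [← h5, div_mul_cancel₀ _ (hmap y y.2).2.1.1]
    rw [h4, map_mul] at h3
    exact mul_right_cancel₀ (hne g₁ ag₁ fun y hy => (hmap y hy).2.1.1) h3
  have hY : ι' h₂ = algebraMap (holomorphicRing V) (FractionRing (holomorphicRing V))
      (sndFun V (ContinuousLinearMap.fst ℂ ℂ Y)) := by
    have h3 := hι h₂ _ _ e₂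
    have h4 : θ (restr f₂ af₂) = sndFun V (ContinuousLinearMap.fst ℂ ℂ Y) * θ (restr g₂ ag₂) := by
      apply Subtype.ext
      funext y
      change f₂ (Ψ y) = y.1.2.1 * g₂ (Ψ y)
      have h5 := congrArg (fun t : ℂ × (ℂ × Y) => t.2.1) (hmap y y.2).2.2
      have h6 : (Φ (Ψ y)).2.1 = y.1.2.1 := h5
      rw [(hΦ' (Ψ y)).2] at h6
      rw [← h6, div_mul_cancel₀ _ (hmap y y.2).2.1.2]
    rw [h4, map_mul] at h3
    exact mul_right_cancel₀ (hne g₂ ag₂ fun y hy => (hmap y hy).2.1.2) h3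
  refine many_places O π hπ (algebraMap (holomorphicRing V) (FractionRing (holomorphicRing V)))
    (IsFractionRing.injective _ _) ι' ?_ hV hV' hVne h₁ h₂ (ContinuousLinearMap.fst ℂ ℂ Y)
    ((1 : ℂ), (0 : Y)) rfl hX hY N
  intro h
  obtain ⟨f, g, hg, hfg⟩ := hq h
  exact ⟨θ f, θ g, fun h0 => hg (hθ (by rw [h0, map_zero])), hι h f g hfg⟩

end Pool.Agent.U166.NF.CN
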