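import Pool.Agent.U166.NF.CN.Val
import Pool.Agent.U166.NF.CX.Pts

set_option autoImplicit false

/-!
# The residue field of the valuation along `z = c`: some functions on `Y` are not squares
-/

namespace Pool.Agent.U166.NF.CN

open Filter Topology NNReal
open Pool.Agent.U166.NF.CX (E E_top E_coe E_add E_anti E_eq_zero lt_of_E_lt le_of_E_le half_lt half_pos'
  lead_limit)

universe u

variable {Y : Type u} [NormedAddCommGroup Y] [NormedSpace ℂ Y] [CompleteSpace Y]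
variable {W : Set (ℂ × Y)} {c : ℂ} {d : Y}

omit [CompleteSpace Y] in
/-- parity of the orders on a line -/
theorem parity (ℓ : Y →L[ℂ] ℂ) (e : Y) (he : ℓ e = 1) (R : ℂ → ℂ)
    (hR : AnalyticOnNhd ℂ R Set.univ) (hR1 : R (ℓ d) = 0) (hR2 : deriv R (ℓ d) ≠ 0)
    (α β : Y → ℂ) (aα : AnalyticAt ℂ α d) (aβ : AnalyticAt ℂ β d)
    (hev : ∀ᶠ w in gen d, R (ℓ w) * α w ^ 2 = β w ^ 2 ∧ α w ≠ 0) : False := by
  have aR : AnalyticAt ℂ (fun w => R (ℓ w)) d :=
    AnalyticAt.comp (g := R) (f := fun w => ℓ w) (hR _ trivial) (ℓ.analyticAt d)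
  have heq : ∀ᶠ w in 𝓝 d, R (ℓ w) * α w ^ 2 = β w ^ 2 :=
    gen_eq (aR.mul (aα.pow 2)) (aβ.pow 2) (hev.mono fun w hw => hw.1)
  obtain ⟨r, hr, hr'⟩ := Metric.eventually_nhds_iff_ball.1
    (heq.and (aα.eventually_analyticAt.and aβ.eventually_analyticAt))
  have h1 : ∀ᶠ w in gen d, ℓ w - ℓ d ≠ 0 := by
    have a1 : AnalyticAt ℂ (fun w => ℓ w - ℓ d) d := (ℓ.analyticAt d).sub analyticAt_const
    refine (gen_or a1).resolve_left fun h => ?_
    have hc : Tendsto (fun t : ℂ => d + t • e) (𝓝 0) (𝓝 d) := by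
      have h2 : Continuous fun t : ℂ => d + t • e := by fun_prop
      simpa using h2.tendsto 0
    have h3 : ∀ᶠ t : ℂ in 𝓝[≠] 0, ℓ (d + t • e) - ℓ d = 0 :=
      (hc.eventually h).filter_mono nhdsWithin_le_nhds
    obtain ⟨t, ht, ht0⟩ := (h3.and self_mem_nhdsWithin).exists
    rw [map_add, map_smul, he, smul_eq_mul, mul_one, add_sub_cancel_left] at ht
    exact ht0 ht
  obtain ⟨w, hw1, hw2, hw3⟩ := (hev.and (h1.and (gen_le d (Metric.ball_mem_nhds d hr)))).exists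
  set v : Y := w - d with hv
  have hvr : ‖v‖ < r := by
    have h2 : dist w d < r := hw3
    rwa [dist_eq_norm] at h2
  have hℓv : ℓ v ≠ 0 := by rw [hv, map_sub]; exact hw2
  -- the line
  have hγc : Continuous fun t : ℂ => d + t • v := by fun_prop
  have hγa : ∀ t : ℂ, AnalyticAt ℂ (fun t : ℂ => d + t • v) t := fun t => by fun_prop
  set T : Set ℂ := {t | d + t • v ∈ Metric.ball d r} with hT
  have hTconv : Convex ℝ T := by
    intro x hx y hy a b ha hb hab
    rw [hT, Set.mem_setOf_eq, mem_ball_iff_norm, add_sub_cancel_left, norm_smul] at hx hy ⊢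
    refine lt_of_le_of_lt (mul_le_mul_of_nonneg_right
      (norm_add_le (a • x) (b • y)) (norm_nonneg v)) ?_
    rw [norm_smul, norm_smul, Real.norm_of_nonneg ha, Real.norm_of_nonneg hb, add_mul, mul_assoc,
      mul_assoc]
    rcases ha.eq_or_lt with rfl | ha'
    · rw [zero_add] at hab
      subst hab
      rw [zero_mul, zero_add, one_mul]
      exact hy
    · calc a * (‖x‖ * ‖v‖) + b * (‖y‖ * ‖v‖) < a * r + b * r :=
          add_lt_add_of_lt_of_le (mul_lt_mul_of_pos_left hx ha')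
            (mul_le_mul_of_nonneg_left hy.le hb)
        _ = r := by rw [← add_mul, hab, one_mul]
  have h0T : (0 : ℂ) ∈ T := by
    change d + (0 : ℂ) • v ∈ Metric.ball d r
    rw [zero_smul, add_zero]
    exact Metric.mem_ball_self hr
  have h1T : (1 : ℂ) ∈ T := by
    change d + (1 : ℂ) • v ∈ Metric.ball d r
    rw [one_smul, hv, add_sub_cancel]
    exact hw3
  have hTn : T ∈ 𝓝 (0 : ℂ) := by
    have h2 : IsOpen T := Metric.isOpen_ball.preimage hγc
    exact h2.mem_nhds h0T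
  set A : ℂ → ℂ := fun t => α (d + t • v) with hA
  set B : ℂ → ℂ := fun t => β (d + t • v) with hB
  set S : ℂ → ℂ := fun t => R (ℓ d + t * ℓ v) with hS
  have aA : AnalyticOnNhd ℂ A T := fun t ht =>
    AnalyticAt.comp (g := α) (f := fun t : ℂ => d + t • v) (hr' _ ht).2.1 (hγa t)
  have aB : AnalyticOnNhd ℂ B T := fun t ht =>
    AnalyticAt.comp (g := β) (f := fun t : ℂ => d + t • v) (hr' _ ht).2.2 (hγa t)
  have aS : AnalyticAt ℂ S 0 := by
    refine AnalyticAt.comp (g := R) (f := fun t : ℂ => ℓ d + t * ℓ v) (hR _ trivial) ?_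
    fun_prop
  have hA0 : analyticOrderAt A 0 ≠ ⊤ := by
    intro h
    have h2 := aA.eqOn_zero_of_preconnected_of_eventuallyEq_zero hTconv.isPreconnected h0T
      (analyticOrderAt_eq_top.1 h) h1T
    apply hw1.2
    change α (d + (1 : ℂ) • v) = 0 at h2
    rwa [one_smul, hv, add_sub_cancel] at h2
  have hS1 : analyticOrderAt S 0 = 1 := by
    apply AnalyticAt.analyticOrderAt_eq_one_of_zero_deriv_ne_zero aS
    · change R (ℓ d + 0 * ℓ v) = 0
      rw [zero_mul, add_zero]; exact hR1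
    · have h2 : HasDerivAt (fun t : ℂ => ℓ d + t * ℓ v) (ℓ v) 0 := by
        simpa using ((hasDerivAt_id (0 : ℂ)).mul_const (ℓ v)).const_add (ℓ d)
      have h3 : HasDerivAt R (deriv R (ℓ d)) (ℓ d + 0 * ℓ v) := by
        rw [zero_mul, add_zero]
        exact (hR _ trivial).differentiableAt.hasDerivAt
      have h4 : HasDerivAt S (deriv R (ℓ d) * ℓ v) 0 := h3.comp (0 : ℂ) h2
      rw [h4.deriv]
      exact mul_ne_zero hR2 hℓv
  have hE : S * A ^ 2 =ᶠ[𝓝 0] B ^ 2 := by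
    filter_upwards [hTn] with t ht
    have h2 := (hr' _ ht).1
    rw [map_add, map_smul, smul_eq_mul] at h2
    exact h2
  have hord := analyticOrderAt_congr hE
  rw [analyticOrderAt_mul aS ((aA 0 h0T).pow 2), analyticOrderAt_pow (aA 0 h0T),
    analyticOrderAt_pow (aB 0 h0T), hS1] at hord
  rcases h4 : analyticOrderAt A 0 with _ | m
  · exact hA0 h4
  · rcases h5 : analyticOrderAt B 0 with _ | n
    · rw [h4, h5] at hord
      have h6 : (2 : ℕ) • (⊤ : ℕ∞) = ⊤ := by simp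
      have h7 : (1 : ℕ∞) + 2 • ((m : ℕ) : ℕ∞) = (2 : ℕ) • (⊤ : ℕ∞) := hord
      rw [h6] at h7
      have h8 : (1 : ℕ∞) + 2 • ((m : ℕ) : ℕ∞) = ((1 + 2 * m : ℕ) : ℕ∞) := by push_cast; simp
      rw [h8] at h7
      exact ENat.natCast_ne_top _ h7
    · rw [h4, h5] at hord
      have h7 : (1 : ℕ∞) + 2 • ((m : ℕ) : ℕ∞) = 2 • ((n : ℕ) : ℕ∞) := hord
      have h8 : (1 : ℕ∞) + 2 • ((m : ℕ) : ℕ∞) = ((1 + 2 * m : ℕ) : ℕ∞) := by push_cast; simp
      have h9 : (2 : ℕ) • ((n : ℕ) : ℕ∞) = ((2 * n : ℕ) : ℕ∞) := by push_cast; simp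
      rw [h8, h9] at h7
      have h10 : 1 + 2 * m = 2 * n := by exact_mod_cast h7
      omega

theorem key (hW : IsOpen W) (hW' : IsPreconnected W) (hp : (c, d) ∈ W)
    (f g q : holomorphicRing W) (hg : g ≠ 0) (ℓ : Y →L[ℂ] ℂ) (e : Y) (he : ℓ e = 1) (Q : ℂ → ℂ)
    (hQ : AnalyticOnNhd ℂ Q Set.univ) (hQ1 : Q (ℓ d) = 0) (hQ2 : deriv Q (ℓ d) ≠ 0)
    (hq : ∀ x : W, q.1 x = Q (ℓ x.1.2))
    (h1 : val hW hp f ≤ val hW hp g) :
    ¬ (val hW hp (q * g ^ 2 - f ^ 2) < val hW hp g ^ 2) := by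
  intro h2
  obtain ⟨j, hj1, hj2⟩ := val_pow hW hW' hp g hg
  have hG := ext_analytic g
  have hF := ext_analytic f
  set G := ext g with hGdef
  set F := ext f with hFdef
  have hFj : (j : ℕ∞) ≤ gord c d F := by
    rw [← hj2]
    exact le_of_E_le h1
  have hQW : AnalyticOnNhd ℂ (fun p : ℂ × Y => Q (ℓ p.2)) W := fun p _ =>
    AnalyticAt.comp (g := fun w : Y => Q (ℓ w)) (f := fun p : ℂ × Y => p.2)
      (AnalyticAt.comp (g := Q) (f := fun w => ℓ w) (hQ _ trivial) (ℓ.analyticAt _)) analyticAt_snd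
  have hH : AnalyticOnNhd ℂ ((fun p : ℂ × Y => Q (ℓ p.2)) * G ^ 2 - F ^ 2) W :=
    (hQW.mul (hG.pow 2)).sub (hF.pow 2)
  set H : ℂ × Y → ℂ := (fun p : ℂ × Y => Q (ℓ p.2)) * G ^ 2 - F ^ 2 with hHdef
  have hvH : val hW hp (q * g ^ 2 - f ^ 2) = E (gord c d H) := by
    refine val_eq hW hp _ hH fun x => ?_
    change q.1 x * g.1 x ^ 2 - f.1 x ^ 2 = Q (ℓ x.1.2) * G x.1 ^ 2 - F x.1 ^ 2
    rw [hq, ext_eq g, ext_eq f]
  have hlt : ((j + j : ℕ) : ℕ∞) < gord c d H := by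
    apply lt_of_E_lt
    rw [← hvH, Nat.cast_add, E_add, ← sq, E_coe, ← hj1]
    exact h2
  have hle : ((j + j + 1 : ℕ) : ℕ∞) ≤ gord c d H := by
    rw [Nat.cast_add, Nat.cast_one]
    exact Order.add_one_le_of_lt hlt
  have hev : ∀ᶠ w in gen d, Q (ℓ w) * ((P^[j] G) (c, w)) ^ 2 = ((P^[j] F) (c, w)) ^ 2 ∧
      (P^[j] G) (c, w) ≠ 0 := by
    filter_upwards [gord_spec hW hG hp, gord_spec hW hF hp, gord_spec hW hH hp, near_W hW hp]
      with w oG oF oH hw
    rw [hj2] at oG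
    have aG := slice_analytic (hG _ hw)
    have aF := slice_analytic (hF _ hw)
    have aH := slice_analytic (hH _ hw)
    have tG := lead_limit aG (i := j) oG.ge
    have tF := lead_limit aF (i := j) (by rw [oF]; exact hFj)
    have tH := lead_limit aH (i := j + j) (by rw [oH]; exact hlt.le)
    have hz : iteratedDeriv (j + j) (fun z => H (z, w)) c = 0 :=
      (natCast_le_analyticOrderAt_iff_iteratedDeriv_eq_zero (n := j + j + 1) aH).1
        (by rw [oH]; exact hle) (j + j) (by omega)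
    rw [hz, zero_div] at tH
    have t2 := ((tG.pow 2).const_mul (Q (ℓ w))).sub (tF.pow 2)
    have t3 := tendsto_nhds_unique (tH.congr fun z => by
      change (Q (ℓ w) * G (z, w) ^ 2 - F (z, w) ^ 2) / (z - c) ^ (j + j) =
        Q (ℓ w) * (G (z, w) / (z - c) ^ j) ^ 2 - (F (z, w) / (z - c) ^ j) ^ 2
      rw [div_pow, div_pow, ← mul_div_assoc, div_sub_div_same, ← pow_mul, mul_two]) t2
    rw [iteratedDeriv_slice hW hG j hw, iteratedDeriv_slice hW hF j hw] at t3
    have hfac : ((j.factorial : ℕ) : ℂ) ≠ 0 := by exact_mod_cast j.factorial_ne_zero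
    constructor
    · have t4 := sub_eq_zero.1 t3.symm
      rw [div_pow, div_pow, ← mul_div_assoc] at t4
      exact (div_left_inj' (pow_ne_zero 2 hfac)).1 t4
    · rw [analyticOrderAt_eq_nat_iff_iteratedDeriv_eq_zero aG] at oG
      rw [← iteratedDeriv_slice hW hG j hw]
      exact oG.2
  exact parity ℓ e he Q hQ hQ1 hQ2 _ _ (slice_analytic' (iter_analytic hG j _ hp))
    (slice_analytic' (iter_analytic hF j _ hp)) hev

end Pool.Agent.U166.NF.CN
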