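import Pool.Agent.U166.NF.CX.Slice
import Pool.Agent.U166.NF.CN.Gen

set_option autoImplicit false

/-!
# The order of an analytic function on an open subset of `ℂ × E` along `z = c`
-/

namespace Pool.Agent.U166.NF.CN

open Filter Topology
open Pool.Agent.U166.NF.CX (lead_limit lead_mul)

universe u

variable {E : Type u} [NormedAddCommGroup E] [NormedSpace ℂ E]

/-- the partial derivative in the first variable -/
noncomputable def P (f : ℂ × E → ℂ) (p : ℂ × E) : ℂ := fderiv ℂ f p (1, 0)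

variable {f g : ℂ × E → ℂ} {W : Set (ℂ × E)}

theorem P_analytic [CompleteSpace E] (hf : AnalyticOnNhd ℂ f W) : AnalyticOnNhd ℂ (P f) W := by
  intro p hp
  exact ((ContinuousLinearMap.apply ℂ ℂ ((1 : ℂ), (0 : E))).analyticAt _).comp (hf.fderiv p hp)

theorem iter_analytic [CompleteSpace E] (hf : AnalyticOnNhd ℂ f W) (j : ℕ) :
    AnalyticOnNhd ℂ (P^[j] f) W := by
  induction j with
  | zero => exact hf
  | succ j ih => rw [Function.iterate_succ_apply']; exact P_analytic ih

theorem slice_deriv {z : ℂ} {w : E} (hf : AnalyticAt ℂ f (z, w)) :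
    HasDerivAt (fun z => f (z, w)) (P f (z, w)) z := by
  have h1 : HasDerivAt (fun z : ℂ => (z, w)) ((1 : ℂ), (0 : E)) z :=
    (hasDerivAt_id z).prodMk (hasDerivAt_const z w)
  exact hf.differentiableAt.hasFDerivAt.comp_hasDerivAt z h1

theorem near_fst (hW : IsOpen W) {z : ℂ} {w : E} (h : (z, w) ∈ W) :
    ∀ᶠ z' in 𝓝 z, (z', w) ∈ W := by
  have hc : Continuous fun z' : ℂ => (z', w) := by fun_prop
  exact hc.continuousAt.eventually (hW.mem_nhds h)

theorem near_snd (hW : IsOpen W) {z : ℂ} {w : E} (h : (z, w) ∈ W) :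
    ∀ᶠ w' in 𝓝 w, (z, w') ∈ W := by
  have hc : Continuous fun w' : E => (z, w') := by fun_prop
  exact hc.continuousAt.eventually (hW.mem_nhds h)

theorem iteratedDeriv_slice [CompleteSpace E] (hW : IsOpen W) (hf : AnalyticOnNhd ℂ f W) (j : ℕ)
    {z : ℂ} {w : E} (h : (z, w) ∈ W) :
    iteratedDeriv j (fun z => f (z, w)) z = (P^[j] f) (z, w) := by
  induction j generalizing z with
  | zero => rw [iteratedDeriv_zero]; rfl
  | succ j ih =>
    rw [iteratedDeriv_succ, Function.iterate_succ_apply']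
    have h1 : iteratedDeriv j (fun z => f (z, w)) =ᶠ[𝓝 z] fun z => (P^[j] f) (z, w) := by
      filter_upwards [near_fst hW h] with z' hz' using ih hz'
    rw [h1.deriv_eq]
    exact (slice_deriv (iter_analytic hf j _ h)).deriv

theorem slice_analytic {z : ℂ} {w : E} (hf : AnalyticAt ℂ f (z, w)) :
    AnalyticAt ℂ (fun z => f (z, w)) z := by
  have h1 : AnalyticAt ℂ (fun z : ℂ => (z, w)) z := analyticAt_id.prod analyticAt_const
  exact AnalyticAt.comp (g := f) (f := fun z : ℂ => (z, w)) hf h1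

theorem slice_analytic' {z : ℂ} {w : E} (hf : AnalyticAt ℂ f (z, w)) :
    AnalyticAt ℂ (fun w => f (z, w)) w := by
  have h1 : AnalyticAt ℂ (fun w : E => (z, w)) w := analyticAt_const.prod analyticAt_id
  exact AnalyticAt.comp (g := f) (f := fun w : E => (z, w)) hf h1

/-! ### the generic order -/

theorem exists_ord [CompleteSpace E] (hW : IsOpen W) (hf : AnalyticOnNhd ℂ f W) {c : ℂ} {d : E}
    (hp : (c, d) ∈ W) :
    (∃ j : ℕ, (∀ᶠ w in gen d, analyticOrderAt (fun z => f (z, w)) c = j)) ∨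
    (∃ r > 0, ∀ w ∈ Metric.ball d r, (c, w) ∈ W ∧ analyticOrderAt (fun z => f (z, w)) c = ⊤) := by
  obtain ⟨r, hr, hrW⟩ := Metric.eventually_nhds_iff_ball.1 (near_snd hW hp)
  have ha : ∀ j, AnalyticOnNhd ℂ (fun w => (P^[j] f) (c, w)) (Metric.ball d r) := fun j w hw =>
    slice_analytic' (iter_analytic hf j _ (hrW w hw))
  by_cases h : ∃ j, ¬ ∀ᶠ w in 𝓝 d, (P^[j] f) (c, w) = 0
  · left
    classical
    refine ⟨Nat.find h, ?_⟩
    have h1 := Nat.find_spec h
    have h2 : ∀ᶠ w in gen d, (P^[Nat.find h] f) (c, w) ≠ 0 :=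
      (gen_or ((ha (Nat.find h)) d (Metric.mem_ball_self hr))).resolve_left h1
    have h3 : ∀ᶠ w in gen d, ∀ i ∈ Finset.range (Nat.find h), (P^[i] f) (c, w) = 0 := by
      refine (Filter.eventually_all_finset _).2 fun i hi => ?_
      have := Nat.find_min h (Finset.mem_range.1 hi)
      push Not at this
      exact this.filter_mono (gen_le d)
    have h4 : ∀ᶠ w in gen d, w ∈ Metric.ball d r :=
      gen_le d (Metric.ball_mem_nhds d hr)
    filter_upwards [h2, h3, h4] with w hw1 hw2 hw3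
    have hw : (c, w) ∈ W := hrW w hw3
    rw [analyticOrderAt_eq_nat_iff_iteratedDeriv_eq_zero (slice_analytic (hf _ hw))]
    refine ⟨fun k hk => ?_, ?_⟩
    · rw [iteratedDeriv_slice hW hf k hw]
      exact hw2 k (Finset.mem_range.2 hk)
    · rw [iteratedDeriv_slice hW hf _ hw]
      exact hw1
  · right
    push Not at h
    refine ⟨r, hr, fun w hw => ⟨hrW w hw, ?_⟩⟩
    rw [ENat.eq_top_iff_forall_ge]
    intro m
    rw [natCast_le_analyticOrderAt_iff_iteratedDeriv_eq_zero (slice_analytic (hf _ (hrW w hw)))]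
    intro i _
    rw [iteratedDeriv_slice hW hf i (hrW w hw)]
    exact (ha i).eqOn_zero_of_preconnected_of_eventuallyEq_zero
      (convex_ball d r).isPreconnected (Metric.mem_ball_self hr) (h i) hw

theorem zero_of_top (hW : IsOpen W) (hW' : IsPreconnected W) (hf : AnalyticOnNhd ℂ f W)
    {c : ℂ} {d : E} (hp : (c, d) ∈ W)
    (h : ∃ r > 0, ∀ w ∈ Metric.ball d r, (c, w) ∈ W ∧
      analyticOrderAt (fun z => f (z, w)) c = ⊤) : ∀ p ∈ W, f p = 0 := by
  obtain ⟨r, hr, h⟩ := h
  obtain ⟨s, hs, hsW⟩ := Metric.mem_nhds_iff.1 (hW.mem_nhds hp)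
  have h1 : f =ᶠ[𝓝 (c, d)] 0 := by
    filter_upwards [Metric.ball_mem_nhds (c, d) (lt_min hr hs)] with p hpb
    obtain ⟨z, w⟩ := p
    rw [← ball_prod_same] at hpb
    obtain ⟨hz, hw⟩ := hpb
    change z ∈ Metric.ball c (min r s) at hz
    change w ∈ Metric.ball d (min r s) at hw
    have hwr : w ∈ Metric.ball d r := Metric.ball_subset_ball (min_le_left _ _) hw
    have hzs : z ∈ Metric.ball c s := Metric.ball_subset_ball (min_le_right _ _) hz
    have hws : w ∈ Metric.ball d s := Metric.ball_subset_ball (min_le_right _ _) hw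
    have h2 : AnalyticOnNhd ℂ (fun z => f (z, w)) (Metric.ball c s) := by
      intro z' hz'
      refine slice_analytic (hf _ (hsW ?_))
      rw [← ball_prod_same]
      exact ⟨hz', hws⟩
    have h3 := analyticOrderAt_eq_top.1 (h w hwr).2
    exact h2.eqOn_zero_of_preconnected_of_eventuallyEq_zero (convex_ball c s).isPreconnected
      (Metric.mem_ball_self hs) h3 hzs
  exact fun p hp' => hf.eqOn_zero_of_preconnected_of_eventuallyEq_zero hW' hp h1 hp'

end Pool.Agent.U166.NF.CN
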