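import Pool.Agent.U166.NF.CX.Val
import Pool.Agent.U166.NF.CN.Slice

set_option autoImplicit false

/-!
# The valuation of an analytic function on an open subset of `ℂ × Y` along `z = c`
-/

namespace Pool.Agent.U166.NF.CN

open Filter Topology NNReal
open Pool.Agent.U166.NF.CX (E E_top E_coe E_add E_anti E_eq_zero lt_of_E_lt le_of_E_le half_lt half_pos')

universe u

/-- the ring of the holomorphic functions on the open subset `W` of a complex normed space -/
def holomorphicRing {X : Type u} [NormedAddCommGroup X] [NormedSpace ℂ X] (W : Set X) :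
    Subring (W → ℂ) where
  carrier := {f | ∃ g : X → ℂ, AnalyticOnNhd ℂ g W ∧ ∀ x : W, f x = g x}
  mul_mem' := by
    rintro a b ⟨g, hg, h1⟩ ⟨k, hk, h2⟩
    refine ⟨g * k, hg.mul hk, fun x => ?_⟩
    rw [Pi.mul_apply, Pi.mul_apply, h1, h2]
  one_mem' := ⟨fun _ => 1, analyticOnNhd_const, fun _ => rfl⟩
  add_mem' := by
    rintro a b ⟨g, hg, h1⟩ ⟨k, hk, h2⟩
    refine ⟨g + k, hg.add hk, fun x => ?_⟩
    rw [Pi.add_apply, Pi.add_apply, h1, h2]
  zero_mem' := ⟨fun _ => 0, analyticOnNhd_const, fun _ => rfl⟩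
  neg_mem' := by
    rintro a ⟨g, hg, h1⟩
    refine ⟨-g, hg.neg, fun x => ?_⟩
    rw [Pi.neg_apply, Pi.neg_apply, h1]

variable {Y : Type u} [NormedAddCommGroup Y] [NormedSpace ℂ Y] [CompleteSpace Y]

/-! ### the generic order -/

open Classical in
/-- the order along `z = c` near `(c, d)` -/
noncomputable def gord (c : ℂ) (d : Y) (g : ℂ × Y → ℂ) : ℕ∞ :=
  if h : ∃ j : ℕ, ∀ᶠ w in gen d, analyticOrderAt (fun z => g (z, w)) c = j then
    ((Classical.choose h : ℕ) : ℕ∞) else ⊤

variable {f g : ℂ × Y → ℂ} {W : Set (ℂ × Y)} {c : ℂ} {d : Y}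

theorem gord_spec (hW : IsOpen W) (hg : AnalyticOnNhd ℂ g W) (hp : (c, d) ∈ W) :
    ∀ᶠ w in gen d, analyticOrderAt (fun z => g (z, w)) c = gord c d g := by
  by_cases h : ∃ j : ℕ, ∀ᶠ w in gen d, analyticOrderAt (fun z => g (z, w)) c = j
  · have h1 := Classical.choose_spec h
    have h2 : gord c d g = ((Classical.choose h : ℕ) : ℕ∞) := by
      unfold gord; rw [dif_pos h]
    rw [h2]; exact h1
  · have h2 : gord c d g = ⊤ := by unfold gord; rw [dif_neg h]
    rw [h2]
    obtain ⟨r, hr, h3⟩ := (exists_ord hW hg hp).resolve_left h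
    have h4 : ∀ᶠ w in gen d, w ∈ Metric.ball d r :=
      gen_le d (Metric.ball_mem_nhds d hr)
    filter_upwards [h4] with w hw using (h3 w hw).2

theorem gord_unique (hW : IsOpen W) (hg : AnalyticOnNhd ℂ g W) (hp : (c, d) ∈ W) {n : ℕ∞}
    (h : ∀ᶠ w in gen d, analyticOrderAt (fun z => g (z, w)) c = n) : gord c d g = n := by
  obtain ⟨w, h1, h2⟩ := ((gord_spec hW hg hp).and h).exists
  rw [← h1, h2]

theorem near_W (hW : IsOpen W) (hp : (c, d) ∈ W) : ∀ᶠ w in gen d, (c, w) ∈ W :=
  gen_le d (near_snd hW hp)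

theorem gord_mul (hW : IsOpen W) (hf : AnalyticOnNhd ℂ f W) (hg : AnalyticOnNhd ℂ g W)
    (hp : (c, d) ∈ W) : gord c d (f * g) = gord c d f + gord c d g := by
  refine gord_unique hW (hf.mul hg) hp ?_
  filter_upwards [gord_spec hW hf hp, gord_spec hW hg hp, near_W hW hp] with w h1 h2 h3
  rw [← h1, ← h2]
  exact analyticOrderAt_mul (slice_analytic (hf _ h3)) (slice_analytic (hg _ h3))

theorem gord_add (hW : IsOpen W) (hf : AnalyticOnNhd ℂ f W) (hg : AnalyticOnNhd ℂ g W)
    (hp : (c, d) ∈ W) : min (gord c d f) (gord c d g) ≤ gord c d (f + g) := by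
  obtain ⟨w, h1, h2, h3, h4⟩ := ((gord_spec hW hf hp).and ((gord_spec hW hg hp).and
    ((gord_spec hW (hf.add hg) hp).and (near_W hW hp)))).exists
  rw [← h1, ← h2, ← h3]
  exact le_analyticOrderAt_add

theorem gord_congr (hW : IsOpen W) (hf : AnalyticOnNhd ℂ f W) (hg : AnalyticOnNhd ℂ g W)
    (hp : (c, d) ∈ W) (h : ∀ x ∈ W, f x = g x) : gord c d f = gord c d g := by
  refine gord_unique hW hf hp ?_
  filter_upwards [gord_spec hW hg hp, near_W hW hp] with w h1 h2
  rw [← h1]
  apply analyticOrderAt_congr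
  filter_upwards [near_fst hW h2] with z hz using h _ hz

theorem gord_top (hW : IsOpen W) (hW' : IsPreconnected W) (hf : AnalyticOnNhd ℂ f W)
    (hp : (c, d) ∈ W) (h : gord c d f = ⊤) : ∀ p ∈ W, f p = 0 := by
  rcases exists_ord hW hf hp with ⟨j, hj⟩ | h1
  · rw [gord_unique hW hf hp hj] at h
    exact absurd h (ENat.natCast_ne_top j)
  · exact zero_of_top hW hW' hf hp h1

theorem gord_zero (hW : IsOpen W) (hp : (c, d) ∈ W) : gord c d 0 = ⊤ := by
  have h0 : AnalyticOnNhd ℂ (0 : ℂ × Y → ℂ) W := analyticOnNhd_const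
  refine gord_unique hW h0 hp (Eventually.of_forall fun w => ?_)
  rw [analyticOrderAt_eq_top]
  exact Eventually.of_forall fun z => rfl

theorem gord_one (hW : IsOpen W) (hp : (c, d) ∈ W) : gord c d 1 = 0 := by
  have h0 : AnalyticOnNhd ℂ (1 : ℂ × Y → ℂ) W := analyticOnNhd_const
  refine gord_unique hW h0 hp (Eventually.of_forall fun w => ?_)
  rw [analyticOrderAt_eq_zero]
  right
  exact one_ne_zero

/-! ### the valuation -/

/-- an extension of a function in the ring -/
noncomputable def ext (f : holomorphicRing W) : ℂ × Y → ℂ := Classical.choose f.2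

theorem ext_analytic (f : holomorphicRing W) : AnalyticOnNhd ℂ (ext f) W :=
  (Classical.choose_spec f.2).1

theorem ext_eq (f : holomorphicRing W) (x : W) : f.1 x = ext f x :=
  (Classical.choose_spec f.2).2 x

theorem gord_ext (hW : IsOpen W) (hp : (c, d) ∈ W) (f : holomorphicRing W)
    (hg : AnalyticOnNhd ℂ g W) (h : ∀ x : W, f.1 x = g x) : gord c d (ext f) = gord c d g :=
  gord_congr hW (ext_analytic f) hg hp fun x hx => by rw [← h ⟨x, hx⟩, ext_eq f ⟨x, hx⟩]

/-- the valuation along `z = c` near `(c, d)` -/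
noncomputable def val (hW : IsOpen W) (hp : (c, d) ∈ W) : Valuation (holomorphicRing W) ℝ≥0 where
  toFun f := E (gord c d (ext f))
  map_zero' := by
    rw [gord_ext hW hp 0 (g := 0) analyticOnNhd_const fun x => rfl, gord_zero hW hp, E_top]
  map_one' := by
    rw [gord_ext hW hp 1 (g := 1) analyticOnNhd_const fun x => rfl, gord_one hW hp]
    exact (E_coe 0).trans (pow_zero _)
  map_mul' a b := by
    rw [gord_ext hW hp (a * b) (g := ext a * ext b) ((ext_analytic a).mul (ext_analytic b)) (fun x => by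
      change a.1 x * b.1 x = ext a x * ext b x
      rw [ext_eq, ext_eq]), gord_mul hW (ext_analytic a) (ext_analytic b) hp, E_add]
  map_add_le_max' a b := by
    rw [gord_ext hW hp (a + b) (g := ext a + ext b) ((ext_analytic a).add (ext_analytic b)) (fun x => by
      change a.1 x + b.1 x = ext a x + ext b x
      rw [ext_eq, ext_eq])]
    have h := gord_add hW (ext_analytic a) (ext_analytic b) hp
    rcases min_choice (gord c d (ext a)) (gord c d (ext b)) with h1 | h1
    · rw [h1] at h
      exact (E_anti h).trans (le_max_left _ _)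
    · rw [h1] at h
      exact (E_anti h).trans (le_max_right _ _)

theorem val_apply (hW : IsOpen W) (hp : (c, d) ∈ W) (f : holomorphicRing W) :
    val hW hp f = E (gord c d (ext f)) := rfl

theorem val_eq (hW : IsOpen W) (hp : (c, d) ∈ W) (f : holomorphicRing W)
    (hg : AnalyticOnNhd ℂ g W) (h : ∀ x : W, f.1 x = g x) : val hW hp f = E (gord c d g) := by
  rw [val_apply, gord_ext hW hp f hg h]

theorem val_zero (hW : IsOpen W) (hW' : IsPreconnected W) (hp : (c, d) ∈ W)
    (f : holomorphicRing W) (h : val hW hp f = 0) : f = 0 := by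
  have h1 := gord_top hW hW' (ext_analytic f) hp (E_eq_zero h)
  apply Subtype.ext
  funext x
  rw [ext_eq f x]
  exact h1 x x.2

theorem val_pow (hW : IsOpen W) (hW' : IsPreconnected W) (hp : (c, d) ∈ W)
    (f : holomorphicRing W) (h : f ≠ 0) : ∃ k : ℕ, val hW hp f = (1 / 2) ^ k ∧
      gord c d (ext f) = k := by
  rcases hn : gord c d (ext f) with _ | k
  · exfalso
    apply h
    apply val_zero hW hW' hp
    rw [val_apply, hn]
    exact E_top
  · exact ⟨k, by rw [val_apply, hn]; exact E_coe k, rfl⟩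

end Pool.Agent.U166.NF.CN
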